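import Pool.Agent.Y520.MS.Real
set_option linter.unusedVariables false
open Filter Topology Polynomial
open Pool.Agent.Helper771.MultSeq Pool.Agent.Y520.MS

namespace Pool.Agent.Y183.MSG

/-- A nonnegative multiplier sequence which infinitely often exceeds `q ^ k`, for every `q < 1`, is
nondecreasing. -/
theorem mono_of_bounds {γ : ℕ → ℝ} (h : IsMultiplierSequence γ) (h0 : ∀ k, 0 ≤ γ k)
    (hlow : ∀ q : ℝ, 0 < q → q < 1 → ∃ᶠ k : ℕ in atTop, q ^ k ≤ γ k) (k : ℕ) : γ k ≤ γ (k + 1) := by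
  have hpos : ∀ j, γ j ≠ 0 → 0 < γ j := fun j hj => lt_of_le_of_ne (h0 j) (Ne.symm hj)
  have hstepne : ∀ j, γ j ≠ 0 → γ (j + 1) ≠ 0 := by
    intro j hj
    obtain ⟨n, hn, hn2⟩ := frequently_atTop.1 (hlow (1 / 2) (by norm_num) (by norm_num)) (j + 1)
    have hne : γ n ≠ 0 := by
      intro h1
      rw [h1] at hn2
      have : (0 : ℝ) < (1 / 2) ^ n := by positivity
      linarith
    obtain ⟨g, rfl⟩ := Nat.exists_eq_add_of_le hn
    exact next_ne h (g := 1 + g) (by omega) hj (by rwa [show j + (1 + g) = j + 1 + g by ring])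
  by_cases hk0 : γ k = 0
  · rw [hk0]; exact h0 _
  by_contra hlt
  push Not at hlt
  have hk : 0 < γ k := hpos k hk0
  have hne : ∀ i, γ (k + i) ≠ 0 := by
    intro i
    induction i with
    | zero => simpa using hk0
    | succ i ih => exact hstepne _ ih
  set q : ℝ := γ (k + 1) / γ k with hq
  have hq0 : 0 < q := div_pos (hpos _ (hne 1)) hk
  have hq1 : q < 1 := by rw [hq, div_lt_one hk]; exact hlt
  have hN := (inJ_of_ms h).newton
  have step : ∀ i : ℕ, γ (k + i + 1) ≤ q * γ (k + i) := by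
    intro i
    induction i with
    | zero => simp only [add_zero]; rw [hq]; field_simp; exact le_rfl
    | succ i ih =>
      have h1 := hN (k + i)
      have h2 : 0 < γ (k + i) := hpos _ (hne i)
      have h3 : 0 ≤ γ (k + i + 1) := h0 _
      have h4 : γ (k + i) * γ (k + i + 2) ≤ γ (k + i) * (q * γ (k + i + 1)) := by
        calc γ (k + i) * γ (k + i + 2) ≤ γ (k + i + 1) ^ 2 := h1
          _ = γ (k + i + 1) * γ (k + i + 1) := by ring
          _ ≤ (q * γ (k + i)) * γ (k + i + 1) := by gcongr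
          _ = γ (k + i) * (q * γ (k + i + 1)) := by ring
      exact le_of_mul_le_mul_left h4 h2
  have bound : ∀ i : ℕ, γ (k + i) ≤ q ^ i * γ k := by
    intro i
    induction i with
    | zero => simp
    | succ i ih =>
      calc γ (k + (i + 1)) ≤ q * γ (k + i) := step i
        _ ≤ q * (q ^ i * γ k) := by gcongr
        _ = q ^ (i + 1) * γ k := by ring
  set s : ℝ := (1 + q) / 2 with hs
  have hs0 : 0 < s := by rw [hs]; linarith
  have hs1 : s < 1 := by rw [hs]; linarith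
  have hqs : q / s < 1 := by rw [div_lt_one hs0, hs]; linarith
  have hlim : Tendsto (fun n : ℕ => (q / s) ^ n) atTop (𝓝 0) :=
    tendsto_pow_atTop_nhds_zero_of_lt_one (by positivity) hqs
  have hε : 0 < q ^ k / γ k := by positivity
  have hev := hlim.eventually (gt_mem_nhds hε)
  obtain ⟨n, hn, hn2⟩ := ((hlow s hs0 hs1).and_eventually (hev.and (eventually_ge_atTop k))).exists
  obtain ⟨hn3, hn4⟩ := hn2
  obtain ⟨i, rfl⟩ := Nat.exists_eq_add_of_le hn4
  have h5 := hn.trans (bound i)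
  have h6 : (q / s) ^ (k + i) * γ k < q ^ k := by rwa [lt_div_iff₀ hk] at hn3
  have h7 : q ^ (k + i) * γ k < q ^ k * s ^ (k + i) := by
    rw [div_pow, div_mul_eq_mul_div, div_lt_iff₀ (by positivity)] at h6
    exact h6
  have h8 : q ^ k * s ^ (k + i) ≤ q ^ k * (q ^ i * γ k) := mul_le_mul_of_nonneg_left h5 (by positivity)
  rw [pow_add q k i] at h7
  linarith

/-- Nonnegative nondecreasing sequences of the class `J` which infinitely often are below
`c (k + 1) ^ D` are polynomial. -/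
theorem poly_freq (D : ℕ) : ∀ γ : ℕ → ℝ, InJ γ → (∀ k, 0 ≤ γ k) → (∀ k, γ k ≤ γ (k + 1)) →
    (∃ c : ℝ, ∃ᶠ k : ℕ in atTop, γ k ≤ c * ((k : ℝ) + 1) ^ D) →
    ∃ a : ℕ → ℝ, ∀ k : ℕ, γ k = ∑ j ∈ Finset.range (D + 1), a j * (k.choose j : ℝ) := by
  have aux : ∀ γ : ℕ → ℝ, InJ γ → (∀ k, 0 ≤ γ k) → (∀ k, γ k ≤ γ (k + 1)) →
      ∀ j n : ℕ, (n : ℝ) * (γ (j + 1) - γ j) ≤ γ (j + n) - γ j := by
    intro γ h h0 hm j n
    have hmono : Monotone (fun k => γ (k + 1) - γ k) :=
      monotone_nat_of_le_succ (fun k => h.diff_mono h0 hm k)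
    induction n with
    | zero => simp
    | succ n ih =>
      have h1 := hmono (show j ≤ j + n by omega)
      simp only at h1
      push_cast
      rw [show j + (n + 1) = j + n + 1 by ring]
      linarith
  induction D with
  | zero =>
    rintro γ h h0 hm ⟨c, hc⟩
    refine InJ.poly 0 γ h h0 hm ⟨c, fun k => ?_⟩
    obtain ⟨n, hn, hn2⟩ := frequently_atTop.1 hc k
    have := monotone_nat_of_le_succ hm hn
    simpa using this.trans hn2
  | succ D ih =>
    rintro γ h h0 hm ⟨c, hc⟩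
    have hηJ : InJ (fun k => γ (k + 1) - γ k) := by
      have := h.shift_sub 1
      simpa using this
    obtain ⟨a, ha⟩ := ih (fun k => γ (k + 1) - γ k) hηJ
      (fun k => by have := hm k; linarith) (fun k => h.diff_mono h0 hm k)
      ⟨c * 2 ^ (D + 2), by
        rw [frequently_atTop] at hc ⊢
        intro j0
        obtain ⟨N, hN, hN2⟩ := hc (2 * j0 + 2)
        refine ⟨N / 2, by omega, ?_⟩
        have hc0 : 0 ≤ c := by
          by_contra hneg
          push Not at hneg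
          have h1 : c * ((N : ℝ) + 1) ^ (D + 1) < 0 := mul_neg_of_neg_of_pos hneg (by positivity)
          linarith [h0 N]
        set j := N / 2 with hj
        have hj1 : 1 ≤ j := by omega
        have h1 := aux γ h h0 hm j (N - j)
        rw [show j + (N - j) = N by omega] at h1
        have h2 : (j : ℝ) ≤ ((N - j : ℕ) : ℝ) := by exact_mod_cast (show j ≤ N - j by omega)
        have h3 : ((N : ℝ) + 1) ≤ 2 * ((j : ℝ) + 1) := by
          have : N + 1 ≤ 2 * (j + 1) := by omega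
          exact_mod_cast this
        have hη0 : 0 ≤ γ (j + 1) - γ j := by have := hm j; linarith
        have hj1' : (1 : ℝ) ≤ j := by exact_mod_cast hj1
        have h4 : ((j : ℝ) + 1) / 2 * (γ (j + 1) - γ j) ≤ ((N - j : ℕ) : ℝ) * (γ (j + 1) - γ j) :=
          mul_le_mul_of_nonneg_right (by linarith) hη0
        have h5 : c * ((N : ℝ) + 1) ^ (D + 1) ≤ c * (2 * ((j : ℝ) + 1)) ^ (D + 1) :=
          mul_le_mul_of_nonneg_left (pow_le_pow_left₀ (by positivity) h3 _) hc0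
        have h6 : ((j : ℝ) + 1) / 2 * (γ (j + 1) - γ j) ≤
            ((j : ℝ) + 1) / 2 * (c * 2 ^ (D + 2) * ((j : ℝ) + 1) ^ D) := by
          have e : c * (2 * ((j : ℝ) + 1)) ^ (D + 1) =
              ((j : ℝ) + 1) / 2 * (c * 2 ^ (D + 2) * ((j : ℝ) + 1) ^ D) := by
            rw [mul_pow]; ring
          rw [← e]
          linarith [h0 j]
        exact le_of_mul_le_mul_left h6 (by positivity)⟩
    refine ⟨fun j => match j with
      | 0 => γ 0
      | (j + 1) => a j, ?_⟩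
    intro k
    rw [Finset.sum_range_succ']
    simp only [Nat.choose_zero_right, Nat.cast_one, mul_one]
    induction k with
    | zero => simp
    | succ k ihk =>
      have h1 := ha k
      have h2 : ∑ x ∈ Finset.range (D + 1), a x * ((k + 1).choose (x + 1) : ℝ) =
          ∑ x ∈ Finset.range (D + 1), a x * (k.choose x : ℝ) +
          ∑ x ∈ Finset.range (D + 1), a x * (k.choose (x + 1) : ℝ) := by
        rw [← Finset.sum_add_distrib]
        refine Finset.sum_congr rfl fun x _ => ?_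
        rw [Nat.choose_succ_succ]
        push_cast
        ring
      rw [h2]
      linarith

theorem poly_of_bounds {γ : ℕ → ℝ} (h : IsMultiplierSequence γ) (h0 : ∀ k, 0 ≤ γ k) {C : ℝ}
    {M : ℕ} (hup : ∃ᶠ k : ℕ in atTop, γ k ≤ C * ((k : ℝ) + 1) ^ M)
    (hlow : ∀ q : ℝ, 0 < q → q < 1 → ∃ᶠ k : ℕ in atTop, q ^ k ≤ γ k) :
    ∃ P : ℝ[X], ∀ k : ℕ, γ k = P.eval (k : ℝ) := by
  obtain ⟨a, ha⟩ := poly_freq M γ (inJ_of_ms h) h0 (mono_of_bounds h h0 hlow) ⟨C, hup⟩
  obtain ⟨Q, hQ⟩ := exists_poly_of_choose M a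
  exact ⟨Q, fun k => by rw [ha k, hQ k]⟩

theorem poly_exp_of_bounds {γ : ℕ → ℝ} (h : IsMultiplierSequence γ) {C ρ : ℝ}
    (hρ : 0 < ρ) {M : ℕ} (hup : ∃ᶠ k : ℕ in atTop, |γ k| ≤ C * ((k : ℝ) + 1) ^ M * ρ ^ k)
    (hlow : ∀ q : ℝ, 0 < q → q < ρ → ∃ᶠ k : ℕ in atTop, q ^ k ≤ |γ k|) :
    ∃ P : ℝ[X], (∀ k : ℕ, γ k = P.eval (k : ℝ) * ρ ^ k) ∨ (∀ k : ℕ, γ k = P.eval (k : ℝ) * (-ρ) ^ k) := by
  have hms : IsMultiplierSequence (fun k => |γ k| * (1 * (ρ⁻¹) ^ k)) :=
    ms_mul (ms_abs h) (ms_geom 1 (inv_pos.2 hρ))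
  have e1 : ∀ k, |γ k| * (1 * (ρ⁻¹) ^ k) = |γ k| / ρ ^ k := by
    intro k
    rw [one_mul, inv_pow, div_eq_mul_inv]
  simp only [e1] at hms
  obtain ⟨P, hP⟩ := poly_of_bounds hms (fun k => by positivity) (C := C) (M := M)
    (hup.mono fun k hk => by
      rw [div_le_iff₀ (by positivity)]
      exact hk)
    (fun q hq0 hq1 => (hlow (q * ρ) (by positivity) (by nlinarith)).mono fun k hk => by
      rw [le_div_iff₀ (by positivity), ← mul_pow]
      exact hk)
  have hP2 : ∀ k, |γ k| = P.eval (k : ℝ) * ρ ^ k := by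
    intro k
    rw [← hP k]
    field_simp
  obtain ⟨a, b, hab⟩ := ms_pattern h
  have hs : ∀ k, γ k = sg (if Even k then a else b) * (P.eval (k : ℝ) * ρ ^ k) := by
    intro k
    by_cases hk : γ k = 0
    · rw [← hP2 k, hk]; simp
    · rw [← hab k hk, ← hP2 k]
      exact eq_sg_abs _
  refine ⟨Polynomial.C (sg a) * P, ?_⟩
  by_cases hab2 : a = b
  · left
    intro k
    rw [hs k, eval_mul, eval_C, hab2, ite_self, mul_assoc]
  · right
    intro k
    rw [hs k, eval_mul, eval_C]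
    by_cases hk : Even k
    · rw [if_pos hk, hk.neg_pow, mul_assoc]
    · have hb : sg b = - sg a := by
        cases a <;> cases b <;> simp_all [sg]
      rw [if_neg hk, (Nat.not_even_iff_odd.1 hk).neg_pow, hb]
      ring

/-! ### Polynomial bounds -/

theorem norm_eval_le (φ : ℂ[X]) : ∃ A : ℝ, 0 < A ∧ ∀ k : ℕ, ‖φ.eval (k : ℂ)‖ ≤ A * ((k : ℝ) + 1) ^ φ.natDegree := by
  refine ⟨∑ i ∈ Finset.range (φ.natDegree + 1), ‖φ.coeff i‖ + 1, by positivity, fun k => ?_⟩
  rw [eval_eq_sum_range]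
  calc ‖∑ i ∈ Finset.range (φ.natDegree + 1), φ.coeff i * (k : ℂ) ^ i‖
      ≤ ∑ i ∈ Finset.range (φ.natDegree + 1), ‖φ.coeff i * (k : ℂ) ^ i‖ := norm_sum_le _ _
    _ ≤ ∑ i ∈ Finset.range (φ.natDegree + 1), ‖φ.coeff i‖ * ((k : ℝ) + 1) ^ φ.natDegree := by
        refine Finset.sum_le_sum fun i hi => ?_
        rw [norm_mul, norm_pow, Complex.norm_natCast]
        refine mul_le_mul_of_nonneg_left ?_ (norm_nonneg _)
        have hi' : i ≤ φ.natDegree := by
          have := Finset.mem_range.1 hi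
          omega
        calc (k : ℝ) ^ i ≤ ((k : ℝ) + 1) ^ i := by gcongr; linarith
          _ ≤ ((k : ℝ) + 1) ^ φ.natDegree := pow_le_pow_right₀ (by linarith [Nat.cast_nonneg (α := ℝ) k]) hi'
    _ = (∑ i ∈ Finset.range (φ.natDegree + 1), ‖φ.coeff i‖) * ((k : ℝ) + 1) ^ φ.natDegree := by
        rw [Finset.sum_mul]
    _ ≤ _ := by
        have : 0 ≤ ((k : ℝ) + 1) ^ φ.natDegree := by positivity
        nlinarith

theorem eventually_le_norm {φ : ℂ[X]} (hφ : φ ≠ 0) :
    ∃ a : ℝ, 0 < a ∧ ∀ᶠ k : ℕ in atTop, a ≤ ‖φ.eval (k : ℂ)‖ := by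
  by_cases hd : 0 < φ.degree
  · refine ⟨1, one_pos, ?_⟩
    have hz : Tendsto (fun k : ℕ => ‖(k : ℂ)‖) atTop atTop := by
      simp only [Complex.norm_natCast]
      exact tendsto_natCast_atTop_atTop
    exact (Polynomial.tendsto_norm_atTop φ hd hz).eventually_ge_atTop 1
  · have hc := eq_C_of_degree_le_zero (not_lt.1 hd)
    have hne : φ.coeff 0 ≠ 0 := by
      intro h0
      rw [h0, map_zero] at hc
      exact hφ hc
    refine ⟨‖φ.coeff 0‖, norm_pos_iff.2 hne, Eventually.of_forall fun k => ?_⟩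
    rw [hc]
    simp

theorem forall_le_norm {ψ : ℂ[X]} (hψ : ∀ k : ℕ, ψ.eval (k : ℂ) ≠ 0) :
    ∃ a : ℝ, 0 < a ∧ ∀ k : ℕ, a ≤ ‖ψ.eval (k : ℂ)‖ := by
  have hne : ψ ≠ 0 := by
    rintro rfl
    exact hψ 0 (by simp)
  obtain ⟨a, ha, hev⟩ := eventually_le_norm hne
  obtain ⟨N, hN⟩ := eventually_atTop.1 hev
  have key : ∀ n : ℕ, ∃ b : ℝ, 0 < b ∧ ∀ k < n, b ≤ ‖ψ.eval (k : ℂ)‖ := by
    intro n
    induction n with
    | zero => exact ⟨1, one_pos, fun k hk => absurd hk (Nat.not_lt_zero _)⟩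
    | succ n ih =>
      obtain ⟨b, hb, hb2⟩ := ih
      refine ⟨min b ‖ψ.eval (n : ℂ)‖, lt_min hb (norm_pos_iff.2 (hψ n)), fun k hk => ?_⟩
      rcases Nat.lt_succ_iff_lt_or_eq.1 hk with h1 | rfl
      · exact (min_le_left _ _).trans (hb2 k h1)
      · exact min_le_right _ _
  obtain ⟨b, hb, hb2⟩ := key N
  refine ⟨min a b, lt_min ha hb, fun k => ?_⟩
  rcases Nat.lt_or_ge k N with h1 | h1
  · exact (min_le_right _ _).trans (hb2 k h1)
  · exact (min_le_left _ _).trans (hN k h1)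

/-- `φ(k) ω ^ k = Q(k)` for all `k` forces `φ = 0` or `ω = 1`. -/
theorem omega_one {φ Q : ℂ[X]} {ω : ℂ} (hω : ω ≠ 0) (h : ∀ k : ℕ, φ.eval (k : ℂ) * ω ^ k = Q.eval (k : ℂ)) :
    φ = 0 ∨ ω = 1 := by
  have hinf : ∀ {R S : ℂ[X]}, (∀ k : ℕ, R.eval (k : ℂ) = S.eval (k : ℂ)) → R = S := by
    intro R S hRS
    refine Polynomial.eq_of_infinite_eval_eq R S ?_
    refine (Set.infinite_range_of_injective (Nat.cast_injective (R := ℂ))).mono ?_
    rintro _ ⟨k, rfl⟩
    exact hRS k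
  by_cases hQ : Q = 0
  · left
    refine hinf fun k => ?_
    have := h k
    rw [hQ, eval_zero] at this
    rw [eval_zero]
    exact (mul_eq_zero.1 this).resolve_right (pow_ne_zero _ hω)
  by_cases hφ : φ = 0
  · exact Or.inl hφ
  right
  have h1 : Polynomial.C ω * (φ.comp (X + Polynomial.C 1)) * Q = φ * Q.comp (X + Polynomial.C 1) := by
    refine hinf fun k => ?_
    simp only [eval_mul, eval_C, eval_comp, eval_add, eval_X]
    have e1 := h k
    have e2 := h (k + 1)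
    push_cast at e2
    rw [← e1, ← e2, pow_succ]
    ring
  have h2 := congrArg Polynomial.leadingCoeff h1
  have hX : (X + Polynomial.C (1 : ℂ)).natDegree ≠ 0 := by rw [natDegree_X_add_C]; exact one_ne_zero
  rw [leadingCoeff_mul, leadingCoeff_mul, leadingCoeff_mul, leadingCoeff_C, leadingCoeff_comp hX,
    leadingCoeff_comp hX, leadingCoeff_X_add_C, one_pow, one_pow, mul_one, mul_one] at h2
  have h3 : φ.leadingCoeff * Q.leadingCoeff ≠ 0 :=
    mul_ne_zero (leadingCoeff_ne_zero.2 hφ) (leadingCoeff_ne_zero.2 hQ)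
  have h4 : (ω - 1) * (φ.leadingCoeff * Q.leadingCoeff) = 0 := by linear_combination h2
  exact sub_eq_zero.1 ((mul_eq_zero.1 h4).resolve_right h3)

end Pool.Agent.Y183.MSG
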